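import Pool.Agent.Results.MP_b50d59_nt.RandomOrbits
import Pool.Agent.N24.KM.All

/-!
# Lehmer's totient problem along metric sequences

The question is whether there is a composite integer `n > 4` such that `φ(n) ∣ n - a(n)`, where `a(n)` is the
largest exponent in the prime factorisation of `n`; equivalently, whether `φ(n) ∣ n - 1` for a composite `n`.

Here `c_0, c_1, …` is a sequence of integral vectors of which nothing is known but that it comes from
ARBITRARY sequences of numbers by generic multipliers: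

* `c_{n,i} = ⌊a_{i,n} α_i⌋`, where the real numbers `a_{i,0}, a_{i,1}, …` have mutual distances at
  least `δ > 0` (for example `n!`, `2 ^ n`, any enumeration of any infinite set of integers), for
  almost all `α ∈ ℝʳ`;
* `c_{n,i} = ⌊ξ_i α_i ^ (k_n)⌋` for different natural numbers `k_0, k_1, …` and `ξ_i ≠ 0`, for almost all
  `α` with `α_i > 1`;
* in general `c_{n,i} = ⌊f_{i,n}(α_i)⌋` for sequences of functions which satisfy the hypothesis of
  Koksma's theorem on intervals `[a_i, b_i]` (`Koksma`), for almost all `α` in the box.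

**Theorem.** For almost all `α`, for ALL linear forms `ℓ ≠ 0` with integral coefficients and ALL nonconstant
polynomials `h` with integral coefficients the values `x_n = h(ℓ(c_n))` have the following properties.

(1) For ALL polynomials `G ≠ 0` with integral coefficients, ALL `k` and for 100% of the `n` there are `k`
primes `q`, not divisors of `G(x_n)`, each of which divides `p - 1` for some prime divisor `p` of `x_n`.

(2) For ALL `G ≠ 0` and `M` we have `M gcd(φ(x_n), G(x_n)) ≤ φ(x_n)` for 100% of the `n`, if `x_n` is positive.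

(3) For ALL `C` and 100% of the `n` there is no composite solution `m > 4` of `φ(m) ∣ m - a(m)` with
`|m - x_n| ≤ C`.

So every infinite set of natural numbers, however sparse, becomes after multiplication by almost every
real number a set which 100% of the time stays away from the solutions of Lehmer's problem.

Proof: the exceptional vectors in (1) form a pronull set (`Pool.Agent.N891.LT.Pro`), and almost all metric
sequences rarely visit such sets (engine `Pool.Agent.N24.KM`, helper24).
-/

set_option autoImplicit false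

namespace Pool.Agent.Results.MP_b50d59_nt.MetricSequences

open Polynomial Filter Topology MeasureTheory
open Pool.Agent.N24.RW (ProNull)
open Pool.Agent.N24.KM (Koksma)
open Pool.Agent.Results.MP_b50d59_nt.RandomOrbits

/-- For all linear forms `ℓ ≠ 0` with integral coefficients and all nonconstant polynomials `h` with integral
coefficients the sequence `h(ℓ(c_n))` has the three properties `FarFromLehmer`. -/
def AllFarFromLehmer {r : ℕ} (c : ℕ → Fin r → ℤ) : Prop :=
  ∀ lam : Fin r → ℤ, lam ≠ 0 → ∀ h : ℤ[X], 0 < h.natDegree →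
    FarFromLehmer fun n => h.eval (∑ i, lam i * c n i)

/-- The data: a linear form, the polynomials `h` and `G`, and `k`. -/
abbrev Data (r : ℕ) : Type := (Fin r → ℤ) × ℤ[X] × ℤ[X] × ℕ

/-- The conditions on the data. -/
def Valid {r : ℕ} (d : Data r) : Prop := d.1 ≠ 0 ∧ 0 < d.2.1.natDegree ∧ d.2.2.1 ≠ 0

/-- The exceptional vectors. -/
def Bad {r : ℕ} (d : Data r) : Set (Fin r → ℤ) :=
  {c : Fin r → ℤ | ¬ Pool.Agent.N891.LT.Far d.2.2.1 d.2.2.2 (d.2.1.eval (∑ i, d.1 i * c i))}

theorem pro {r : ℕ} (d : Data r) (hd : Valid d) : ProNull (Bad d) :=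
  Pool.Agent.N891.LT.far_null d.1 hd.1 d.2.1 hd.2.1 d.2.2.1 hd.2.2 d.2.2.2

theorem all_of_data {r : ℕ} {c : ℕ → Fin r → ℤ}
    (h : ∀ d : Data r, Valid d → Pool.Agent.N891.LT.Rare fun n => c n ∈ Bad d) :
    AllFarFromLehmer c := fun lam hl f hf =>
  all_of_far (y := fun n => ∑ i, lam i * c n i)
    (fun f' hf' G hG k => h (lam, f', G, k) ⟨hl, hf', hG⟩) f hf

/-- (1) For all real `a_{i,n}` with `|a_{i,m} - a_{i,n}| ≥ δ > 0` for `m ≠ n` and almost all `α ∈ ℝʳ`, (2) for all
injective `k : ℕ → ℕ`, all `ξ_i ≠ 0` and almost all `α` with `α_i > 1`, (3) for all sequences of functions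
with the hypothesis of Koksma's theorem on `[a_i, b_i]` and almost all `α` in the box, the following holds
for `c_{n,i} = ⌊a_{i,n} α_i⌋`, `⌊ξ_i α_i ^ (k_n)⌋` and `⌊f_{i,n}(α_i)⌋` respectively: for ALL linear forms
`ℓ ≠ 0` and ALL nonconstant polynomials `h` with integral coefficients the values `h(ℓ(c_n))` have the three
properties `FarFromLehmer`. -/
theorem result (r : ℕ) :
    (∀ (a : Fin r → ℕ → ℝ) (δ : ℝ), 0 < δ → (∀ i m n, m ≠ n → δ ≤ |a i m - a i n|) →
      ∀ᵐ α : Fin r → ℝ, AllFarFromLehmer fun n i => ⌊a i n * α i⌋) ∧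
    (∀ (k : ℕ → ℕ) (ξ : Fin r → ℝ), Function.Injective k → (∀ i, ξ i ≠ 0) →
      ∀ᵐ α : Fin r → ℝ, (∀ i, 1 < α i) → AllFarFromLehmer fun n i => ⌊ξ i * α i ^ k n⌋) ∧
    (∀ (a b : Fin r → ℝ) (f : Fin r → ℕ → ℝ → ℝ), (∀ i, a i < b i) →
      (∀ i, Koksma (a i) (b i) (f i)) →
      ∀ᵐ α : Fin r → ℝ, (∀ i, α i ∈ Set.Icc (a i) (b i)) →
        AllFarFromLehmer fun n i => ⌊f i n (α i)⌋) := by
  have c1 : Countable ℤ[X] := countable_poly
  refine ⟨fun a δ hδ ha => ?_, fun k ξ hk hξ => ?_, fun a b f hab hf => ?_⟩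
  · have h : ∀ d : Data r, ∀ᵐ α : Fin r → ℝ, Valid d →
        Pool.Agent.N891.LT.Rare fun n => (fun i => ⌊a i n * α i⌋) ∈ Bad d := by
      intro d
      simp only [ae_all_iff]
      intro hd
      exact (Pool.Agent.N24.KM.main (Fin r) _ (pro d hd)).2.1 a δ hδ ha
    filter_upwards [ae_all_iff.2 h] with α hα
    exact all_of_data fun d hd => hα d hd
  · have h : ∀ d : Data r, ∀ᵐ α : Fin r → ℝ, Valid d → (∀ i, 1 < α i) →
        Pool.Agent.N891.LT.Rare fun n => (fun i => ⌊ξ i * α i ^ k n⌋) ∈ Bad d := by
      intro d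
      rw [ae_all_iff (ι := Valid d)]
      intro hd
      exact (Pool.Agent.N24.KM.main (Fin r) _ (pro d hd)).2.2 k ξ hk hξ
    filter_upwards [ae_all_iff.2 h] with α hα h1
    exact all_of_data fun d hd => hα d hd h1
  · have h : ∀ d : Data r, ∀ᵐ α : Fin r → ℝ, Valid d → (∀ i, α i ∈ Set.Icc (a i) (b i)) →
        Pool.Agent.N891.LT.Rare fun n => (fun i => ⌊f i n (α i)⌋) ∈ Bad d := by
      intro d
      rw [ae_all_iff (ι := Valid d)]
      intro hd
      exact (Pool.Agent.N24.KM.main (Fin r) _ (pro d hd)).1 a b f hab hf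
    filter_upwards [ae_all_iff.2 h] with α hα h1
    exact all_of_data fun d hd => hα d hd h1

end Pool.Agent.Results.MP_b50d59_nt.MetricSequences
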