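import Pool.Agent.N733.TG.K
import Pool.Agent.Results.MP_b50d59_nt.PolynomialValues
import Pool.Agent.Results.MP_b50d59_nt.LehmerSqrtAnyLogPower

/-!
# No composite `n` with `φ(n) ∣ n - a(n)` near functions of the values of multiplicative functions

Let `f` be a positive multiplicative function of at most polynomial growth such that `f p ≤ M p` for the large primes `p`,
with different values at different large primes; for example Euler's function or the sum of the divisors. Let `α > 0`,
`1 ≤ d < 2` and `κ < 1 - d / 2`. For all `m ≤ N` but `N / (log N)^U` there is no composite `n > 4` with `φ(n) ∣ n - a(n)` and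
`|n - α f(m)^d| ≤ f(m)^κ`. The same holds for the polynomial values `n = F(t)`, `|t - α f(m)^d| ≤ f(m)^κ`, with
`d (1 - 1 / (k² + k + 1)) + κ < 1`, `k` the degree of `F`. The values of `f` are in general taken with very large
multiplicities, and so this does not follow from the size of the exceptional sets.

Proof. The tool of `Pool.Agent.N733.TG` (values of such functions avoid sets with a power saving), with the starting theorems
on the number of the composite solutions up to `x` and of the polynomial values which are composite solutions.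
-/

set_option autoImplicit false

namespace Pool.Agent.Results.MP_b50d59_nt.MultiplicativeValues

open Finset Polynomial
open Pool.Agent.N733.TG (LM Expanding lm_totient lm_sigma keep_win_nat expanding_pow)

/-- `n` is a composite integer `n > 4` with `φ(n) ∣ n - a(n)`, where `a(n)` is the largest exponent in the prime
factorisation of `n` -/
def Solution (n : ℕ) : Prop := 4 < n ∧ ¬ n.Prime ∧ n.totient ∣ (n - Nca8c8b9b.a n)

/-- **No composite solutions near the values of multiplicative functions.** Let `f` be multiplicative and positive, of at most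
polynomial growth, with `f p ≤ M p` at the large primes, and injective there. Let `G` have steps `≥ a > 0` and growth at most
`v^d`, and let `κ ≥ 0`. For every `U` and all large `N`, for all `m ≤ N` but at most `N / (log N)^U`:
(1) if `d / 2 + κ < 1`, no composite solution `n` has `|n - G (f m)| ≤ f(m)^κ`;
(2) if `F` is a polynomial with integer coefficients of degree `k ≥ 1` and `d (1 - 1 / (k² + k + 1)) + κ < 1`, then `F(t)` is
for no `t ≥ 1` with `|t - G (f m)| ≤ f(m)^κ` a composite solution.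
Euler's function and the sum of the divisors are examples of such functions `f`, and `α v^d` with `α > 0`, `d ≥ 1` is an
example of `G`. -/
theorem result :
    (∀ f : ℕ → ℕ, LM f → ∀ (G : ℕ → ℝ) (d : ℝ), Expanding G d → ∀ κ : ℝ, 0 ≤ κ → d / 2 + κ < 1 →
      ∀ U : ℕ, ∃ N₀ : ℕ, ∀ N : ℕ, N₀ ≤ N →
      ({m : ℕ | 1 ≤ m ∧ m ≤ N ∧ ∃ n : ℕ, Solution n ∧ |(n : ℝ) - G (f m)| ≤ (f m : ℝ) ^ κ}.ncard : ℝ) ≤
        N / Real.log N ^ U) ∧
    (∀ (F : ℤ[X]) (k : ℕ), F.natDegree = k → 1 ≤ k →
      ∀ f : ℕ → ℕ, LM f → ∀ (G : ℕ → ℝ) (d : ℝ), Expanding G d → ∀ κ : ℝ, 0 ≤ κ →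
      d * (1 - 1 / ((k : ℝ) ^ 2 + k + 1)) + κ < 1 → ∀ U : ℕ, ∃ N₀ : ℕ, ∀ N : ℕ, N₀ ≤ N →
      ({m : ℕ | 1 ≤ m ∧ m ≤ N ∧ ∃ t : ℕ, 1 ≤ t ∧ |(t : ℝ) - G (f m)| ≤ (f m : ℝ) ^ κ ∧
        ∃ n : ℕ, F.eval (t : ℤ) = n ∧ Solution n}.ncard : ℝ) ≤ N / Real.log N ^ U) ∧
    (LM Nat.totient ∧ LM (fun m => ∑ d ∈ m.divisors, d)) ∧
    ∀ α d : ℝ, 0 < α → 1 ≤ d → Expanding (fun v => α * (v : ℝ) ^ d) d := by
  classical
  refine ⟨fun f hf G d hG κ hκ h1 U => ?_, fun F k hk hk1 f hf G d hG κ hκ h1 U => ?_, ⟨lm_totient, lm_sigma⟩,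
    fun α d hα hd => expanding_pow hα hd⟩
  · obtain ⟨N₀, hN₀⟩ := keep_win_nat {n | Solution n} hf hG (s := 1 / 2) (κ := κ) (by norm_num) hκ
      (by rw [mul_one_div]; exact h1) (fun ε hε => by
        obtain ⟨C, hC, h⟩ := Pool.Agent.Results.MP_b50d59_nt.LehmerSqrtAnyLogPower.result 0
        refine ⟨C + 1, fun X hX => ?_⟩
        rcases Nat.lt_or_ge X 2 with hX2 | hX2
        · have hX1 : X = 1 := by omega
          subst hX1
          have : (Ioc 0 1).filter (fun t : ℕ => t ∈ {n | Solution n}) = ∅ := by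
            apply Finset.filter_eq_empty_iff.mpr
            intro t ht h3
            rw [Finset.mem_Ioc] at ht
            have h4 : 4 < t := h3.1
            omega
          rw [this]
          simp
          positivity
        · have h2 := h X hX2
          have hX1 : (1 : ℝ) ≤ X := by exact_mod_cast hX
          rw [Real.rpow_zero, div_one] at h2
          have h3 : (((Ioc 0 X).filter (fun t : ℕ => t ∈ {n | Solution n})).card : ℝ) ≤ C * Real.sqrt X := by
            refine le_trans ?_ h2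
            norm_cast
            apply Finset.card_le_card
            intro t ht
            rw [Finset.mem_filter, Finset.mem_Ioc] at ht
            rw [Finset.mem_filter, Finset.mem_Icc]
            exact ⟨⟨by omega, ht.1.2⟩, ht.2⟩
          refine h3.trans ?_
          rw [Real.sqrt_eq_rpow]
          have h4 : (X : ℝ) ^ (1 / 2 : ℝ) ≤ (X : ℝ) ^ (1 / 2 + ε) :=
            Real.rpow_le_rpow_of_exponent_le hX1 (by linarith)
          have h5 : (0 : ℝ) ≤ (X : ℝ) ^ (1 / 2 : ℝ) := by positivity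
          nlinarith) U
    refine ⟨N₀, fun N hN => le_trans ?_ (hN₀ N hN)⟩
    have hfin : {m : ℕ | 1 ≤ m ∧ m ≤ N ∧ ∃ n : ℕ, (n = 0 ∨ n ∈ {n | Solution n}) ∧
        |(n : ℝ) - G (f m)| ≤ (f m : ℝ) ^ κ}.Finite := by
      apply (Set.finite_Icc 1 N).subset
      intro m hm
      exact ⟨hm.1, hm.2.1⟩
    refine Nat.cast_le.mpr (Set.ncard_le_ncard ?_ hfin)
    rintro m ⟨h2, h3, n, h4, h5⟩
    exact ⟨h2, h3, n, Or.inr h4, h5⟩
  · have hk0 : (0 : ℝ) < (k : ℝ) ^ 2 + k + 1 := by positivity
    obtain ⟨N₀, hN₀⟩ := keep_win_nat {t | ∃ n : ℕ, F.eval (t : ℤ) = n ∧ Solution n} hf hG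
      (s := 1 - 1 / ((k : ℝ) ^ 2 + k + 1)) (κ := κ) (by
        rw [sub_nonneg, div_le_one hk0]
        nlinarith [sq_nonneg (k : ℝ), Nat.cast_nonneg (α := ℝ) k]) hκ h1 (fun ε hε => by
        obtain ⟨C, hC, h⟩ := Pool.Agent.Results.MP_b50d59_nt.PolynomialValues.result F k hk hk1 ε hε
        refine ⟨C, fun X hX => le_trans ?_ (h X hX)⟩
        refine Nat.cast_le.mpr (Finset.card_le_card ?_)
        intro t ht
        rw [Finset.mem_filter, Finset.mem_Ioc] at ht
        rw [Finset.mem_filter, Finset.mem_Icc]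
        obtain ⟨n, h2, h3, h4, h5⟩ := ht.2
        exact ⟨⟨by omega, ht.1.2⟩, n, h2, h3, h4, h5⟩) U
    refine ⟨N₀, fun N hN => le_trans ?_ (hN₀ N hN)⟩
    have hfin : {m : ℕ | 1 ≤ m ∧ m ≤ N ∧ ∃ n : ℕ, (n = 0 ∨ n ∈ {t : ℕ | ∃ n : ℕ, F.eval (t : ℤ) = n ∧ Solution n}) ∧
        |(n : ℝ) - G (f m)| ≤ (f m : ℝ) ^ κ}.Finite := by
      apply (Set.finite_Icc 1 N).subset
      intro m hm
      exact ⟨hm.1, hm.2.1⟩
    refine Nat.cast_le.mpr (Set.ncard_le_ncard ?_ hfin)
    rintro m ⟨h1, h2, t, _, h4, h5⟩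
    exact ⟨h1, h2, t, Or.inr h5, h4⟩

end Pool.Agent.Results.MP_b50d59_nt.MultiplicativeValues
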