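import Pool.Agent.N891.LT.Rare

/-!
# Lehmer's totient problem along random orbits of thin groups

The question is whether there is a composite integer `n > 4` such that `φ(n) ∣ n - a(n)`, where `a(n)` is the
largest exponent in the prime factorisation of `n`; equivalently, whether `φ(n) ∣ n - 1` for a composite `n`.

Let `W` be a finite family of integral matrices of determinant one, of size `r ≥ 2`, which generates the
special linear group modulo all `q` prime to some `q₀`, for example generators of a Zariski dense subgroup,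
possibly of infinite index; let `u ≠ 0` be an integral vector. We multiply `u` by matrices of `W` which are
chosen at random, independently of each other. The sizes of the vectors `v_t` grow exponentially, so this
sequence is much too sparse for the bounds for the number of the solutions up to `x`.

**Theorem.** Almost surely the following holds for ALL linear forms `ℓ ≠ 0` with integral coefficients
and ALL nonconstant polynomials `f` with integral coefficients, and `x_t = f(ℓ(v_t))`.

(1) For ALL polynomials `G ≠ 0` with integral coefficients, ALL `k` and for 100% of the `t` there are `k`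
primes `q`, not divisors of `G(x_t)`, each of which divides `p - 1` for some prime divisor `p` of `x_t`. So the
radical of `φ(x_t)` does not divide `G(x_t)`.

(2) For ALL `G ≠ 0` and `M` we have `M gcd(φ(x_t), G(x_t)) ≤ φ(x_t)` for 100% of the `t`, if `x_t` is positive.

(3) For ALL `C` and 100% of the `t` there is no composite solution `n > 4` of `φ(n) ∣ n - a(n)` with
`|n - x_t| ≤ C`.

The exceptional vectors in (1) form a pronull set (first part of the theorem), so (1) also holds in every
other situation in which pronull sets are negligible.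

Proof. Let `q` be a prime. There are many primes `p ≡ 1 (mod q)` such that `f` has a zero modulo `p`, since
there are many primes which split completely in the field generated by a zero of `f` and a `q`-th root of
unity (`Pool.Agent.Helper932.SplitPrimes`). So the vectors `c` such that `f(ℓ(c))` is not divisible by a prime
`p ≡ 1 (mod q)` form a pronull set, and a large prime `q` divides `G(f(ℓ(c)))` for few `c`
(`Pool.Agent.N891.LT.Pro`). Random orbits rarely visit pronull sets (engine `Pool.Agent.N24.RW`).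
-/

set_option autoImplicit false

namespace Pool.Agent.Results.MP_b50d59_nt.RandomOrbits

open Polynomial Filter Topology MeasureTheory
open Pool.Agent.N24.RW (ProNull Walk orb words)

/-- `n` is a composite integer `n > 4` with `φ(n) ∣ n - a(n)`, where `a(n)` is the largest exponent in the
prime factorisation of `n`. -/
def Solution (n : ℕ) : Prop := 4 < n ∧ ¬ n.Prime ∧ n.totient ∣ (n - Nca8c8b9b.a n)

/-- There are `k` primes `q` with `q ∤ G(n)` and `q ∣ p - 1` for some prime divisor `p` of `n`. -/
def Far (G : ℤ[X]) (k : ℕ) (n : ℤ) : Prop :=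
  ∃ Q : Finset ℕ, Q.card = k ∧ ∀ q ∈ Q, q.Prime ∧ ¬ (q : ℤ) ∣ G.eval n ∧
    ∃ p : ℕ, p.Prime ∧ (p : ℤ) ∣ n ∧ q ∣ p - 1

/-- The property `p` holds for 100% of the natural numbers. -/
def MostTimes (p : ℕ → Prop) : Prop :=
  Tendsto (fun T : ℕ => (({n : ℕ | n < T ∧ p n}.ncard : ℕ) : ℝ) / (T : ℝ)) atTop (𝓝 1)

/-- The three properties of the sequence `x`: for all polynomials `G ≠ 0` with integral coefficients and
all natural numbers `k`, `M`, `C` and for 100% of the `t`
(1) there are `k` primes `q` with `q ∤ G(x_t)` and `q ∣ p - 1` for some prime divisor `p` of `x_t`;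
(2) `M gcd(φ(x_t), G(x_t)) ≤ φ(x_t)`, if `x_t ≥ 1`;
(3) no solution `n` has `|n - x_t| ≤ C`. -/
def FarFromLehmer (x : ℕ → ℤ) : Prop :=
  (∀ G : ℤ[X], G ≠ 0 → ∀ k : ℕ, MostTimes fun t => Far G k (x t)) ∧
  (∀ G : ℤ[X], G ≠ 0 → ∀ M : ℕ, MostTimes fun t => ∀ n : ℕ, 1 ≤ n → (n : ℤ) = x t →
    M * Nat.gcd n.totient (G.eval (n : ℤ)).natAbs ≤ n.totient) ∧
  ∀ C : ℕ, MostTimes fun t => ∀ n : ℕ, |(n : ℤ) - x t| ≤ C → ¬ Solution n

theorem most_of_never {p : ℕ → Prop}
    (h : Tendsto (fun N : ℕ => (({n : ℕ | n < N ∧ ¬ p n}.ncard : ℕ) : ℝ) / (N : ℝ)) atTop (𝓝 0)) :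
    MostTimes p := by
  have h1 := h.const_sub 1
  rw [sub_zero] at h1
  refine h1.congr' ?_
  filter_upwards [eventually_ge_atTop 1] with N hN
  have hN0 : (N : ℝ) ≠ 0 := by
    have : (N : ℕ) ≠ 0 := by omega
    exact_mod_cast this
  have h2 : {n : ℕ | n < N ∧ p n} ∪ {n : ℕ | n < N ∧ ¬ p n} = Set.Iio N := by
    ext n
    simp only [Set.mem_union, Set.mem_ofPred_eq, Set.mem_Iio]
    tauto
  have h3 : Disjoint {n : ℕ | n < N ∧ p n} {n : ℕ | n < N ∧ ¬ p n} := by
    rw [Set.disjoint_left]
    rintro n ⟨_, hn⟩ ⟨_, hn'⟩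
    exact hn' hn
  have hf : ∀ q : ℕ → Prop, {n : ℕ | n < N ∧ q n}.Finite := fun q =>
    (Set.finite_Iio N).subset fun n hn => hn.1
  have h4 := Set.ncard_union_eq h3 (hf _) (hf _)
  rw [h2, Set.ncard_eq_toFinset_card', Set.toFinset_Iio, Nat.card_Iio] at h4
  have h5 : (N : ℝ) = (({n : ℕ | n < N ∧ p n}.ncard : ℕ) : ℝ) +
      (({n : ℕ | n < N ∧ ¬ p n}.ncard : ℕ) : ℝ) := by exact_mod_cast h4
  rw [eq_div_iff hN0, sub_mul, div_mul_cancel₀ _ hN0]
  linarith

theorem countable_poly : Countable ℤ[X] := by
  rw [← Cardinal.mk_le_aleph0_iff]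
  refine (Polynomial.cardinalMk_le_max (R := ℤ)).trans ?_
  exact max_le (Cardinal.mk_le_aleph0_iff.2 inferInstance) le_rfl

theorem all_of_far {y : ℕ → ℤ} (h : ∀ f : ℤ[X], 0 < f.natDegree → ∀ G : ℤ[X], G ≠ 0 → ∀ k : ℕ,
    Pool.Agent.N891.LT.Rare fun t => ¬ Pool.Agent.N891.LT.Far G k (f.eval (y t))) (f : ℤ[X])
    (hf : 0 < f.natDegree) : FarFromLehmer fun t => f.eval (y t) := by
  obtain ⟨h1, h2⟩ := Pool.Agent.N891.LT.consequences h f hf
  exact ⟨fun G hG k => most_of_never (h f hf G hG k), fun G hG M => most_of_never (h1 G hG M),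
    fun C => most_of_never (h2 C)⟩

/-- (1) For all `r`, all linear forms `ℓ ≠ 0` in `r` variables with integral coefficients `lam`, all
nonconstant `f ∈ ℤ[X]`, all `G ≠ 0` in `ℤ[X]` and all `k` the vectors `c` such that there are no `k` primes `q`
with `q ∤ G(n)` and `q ∣ p - 1` for some prime divisor `p` of `n = f(ℓ(c))`, form a pronull set. (2) Let
`r ≥ 2`, let `W` be a finite family of integral matrices of determinant one and size `r` which generates the
special linear group modulo all `q` prime to some `q₀`, and `u ≠ 0`. For almost every infinite word in the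
matrices the values `f(ℓ(v_t))` at the points `v_t` of the orbit of `u` have the three properties
`FarFromLehmer` for ALL linear forms `ℓ ≠ 0` and ALL nonconstant `f` with integral coefficients. -/
theorem result (r : ℕ) :
    (∀ lam : Fin r → ℤ, lam ≠ 0 → ∀ f : ℤ[X], 0 < f.natDegree → ∀ G : ℤ[X], G ≠ 0 → ∀ k : ℕ,
      ProNull {c : Fin r → ℤ | ¬ Far G k (f.eval (∑ i, lam i * c i))}) ∧
    (2 ≤ r → ∀ (W : Walk (Fin r)) (u : Fin r → ℤ), u ≠ 0 → ∀ᵐ w ∂(words W.m),
      ∀ lam : Fin r → ℤ, lam ≠ 0 → ∀ f : ℤ[X], 0 < f.natDegree →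
        FarFromLehmer fun t => f.eval (∑ i, lam i * orb W u w t i)) := by
  have key : ∀ lam : Fin r → ℤ, lam ≠ 0 → ∀ f : ℤ[X], 0 < f.natDegree → ∀ G : ℤ[X], G ≠ 0 →
      ∀ k : ℕ, ProNull {c : Fin r → ℤ | ¬ Far G k (f.eval (∑ i, lam i * c i))} :=
    fun lam hl f hf G hG k => Pool.Agent.N891.LT.far_null lam hl f hf G hG k
  refine ⟨key, fun hr W u hu => ?_⟩
  have c1 : Countable ℤ[X] := countable_poly
  have h : ∀ᵐ w ∂(words W.m), ∀ lam : Fin r → ℤ, lam ≠ 0 → ∀ f : ℤ[X], 0 < f.natDegree →
      ∀ G : ℤ[X], G ≠ 0 → ∀ k : ℕ, Pool.Agent.N891.LT.Rare fun t =>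
        ¬ Pool.Agent.N891.LT.Far G k (f.eval (∑ i, lam i * orb W u w t i)) := by
    simp only [ae_all_iff]
    intro lam hl f hf G hG k
    filter_upwards [Pool.Agent.N24.RW.main (Fin r) (by rwa [Fintype.card_fin]) W u hu _
      (key lam hl f hf G hG k)] with w hw
    exact hw
  filter_upwards [h] with w hw lam hl f hf
  exact all_of_far (y := fun t => ∑ i, lam i * orb W u w t i) (fun f' hf' => hw lam hl f' hf') f hf

end Pool.Agent.Results.MP_b50d59_nt.RandomOrbits
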