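import Pool.Agent.N92.SD.Leh
import Pool.Agent.H95R2.Leh.Congr

/-!
# Lehmer's totient problem for thin sequences

The question is whether there is a composite integer `n > 4` such that `φ(n) ∣ n - a(n)`, where `a(n)` is the
largest exponent in the prime factorisation of `n`; equivalently, whether `φ(n) ∣ n - 1` for a composite `n`.

The starting results bound the number of the solutions `n ≤ x` (by `C √x / (log x) ^ A`), of the solutions in
short intervals, and of the polynomial values which are solutions. A counting function says nothing about the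
members of a sequence which has fewer than `√x` members up to `x`. Here we consider arbitrary sequences
`a(t)`, `t = 1, 2, 3, …`, which may grow as fast as we please; the only condition is that they are uniformly
distributed modulo all integers `q`. More generally `t` can be restricted to finite sets `S N ⊆ (N, 2N]`, for
instance to the primes in `(N, 2N]`.

**Theorem.** Let the sequence `a(t)` of integers be uniformly distributed modulo all integers along `S N`,
and along `S' N`. There is ONE set `E` of natural numbers, of density zero relative to `S N` and to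
`S' N`, such that the following holds.

(1) For ALL polynomials `G ≠ 0` with integral coefficients, ALL integers `c` and ALL `k` and for all but
finitely many `t ∉ E` there are `k` primes `q`, not divisors of `G(n)`, `n = a(t) + c`, each of which divides
`p - 1` for some prime divisor `p` of `n`. So the radical of `φ(n)` does not divide `G(n)`, it does not even
after the removal of fewer than `k` primes, and `n` is not a Carmichael number.

(2) For all `G ≠ 0`, `c`, `M` and for all but finitely many `t ∉ E` we have `M gcd(φ(n), G(n)) ≤ φ(n)`,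
if `n = a(t) + c` is positive: the greatest common divisor of `φ(n)` and `n - 1` is `o(φ(n))` outside `E`.

(3) For every `C`, for all but finitely many `t ∉ E` there is no composite solution `n > 4` of
`φ(n) ∣ n - a(n)` with `|n - a(t)| ≤ C`.

Uniformly distributed modulo all integers, along all integers and along the primes, are for example the
integral parts of generalised polynomials `P(t) = ∑ α_i t ^ i`, finite sums of real powers with real
coefficients, with positive non-integral leading exponent and positive leading coefficient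
(second part of the theorem), for instance `⌊t ^ √2⌋` or `⌊π t ^ 100.5⌋`.

Proof. Let `G(m) ≠ 0`. By Turán's sieve for well distributed sequences most of the numbers `n = a(t) + c` are
congruent to `m` modulo one (and even modulo `k`) of finitely many primes `q` which do not divide `G(m)`; then
`q` does not divide `G(n)`. For given `q` almost all of the `n` are divisible by a prime `p ≡ 1 (mod q)`
(Dirichlet's theorem and again Turán's sieve). A diagonal argument gives one set `E`.
-/

set_option autoImplicit false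

namespace Pool.Agent.Results.MP_b50d59_nt.ThinSequences

open Polynomial

/-- `n` is a composite integer `n > 4` with `φ(n) ∣ n - a(n)`, where `a(n)` is the largest exponent in the
prime factorisation of `n`. -/
def Solution (n : ℕ) : Prop := 4 < n ∧ ¬ n.Prime ∧ n.totient ∣ (n - Nca8c8b9b.a n)

/-- There are `k` primes `q` with `q ∤ G(n)` and `q ∣ p - 1` for some prime divisor `p` of `n`. -/
def Far (G : ℤ[X]) (k : ℕ) (n : ℤ) : Prop :=
  ∃ Q : Finset ℕ, Q.card = k ∧ ∀ q ∈ Q, q.Prime ∧ ¬ (q : ℤ) ∣ G.eval n ∧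
    ∃ p : ℕ, p.Prime ∧ (p : ℤ) ∣ n ∧ q ∣ p - 1

/-- `E` has density zero relative to the sets `S N`. -/
def NullIn (S : ℕ → Finset ℕ) (E : Set ℕ) : Prop :=
  ∀ ε : ℝ, 0 < ε → ∃ N₀ : ℕ, ∀ N : ℕ, N₀ ≤ N →
    ({t : ℕ | t ∈ S N ∧ t ∈ E}.ncard : ℝ) ≤ ε * (S N).card

/-- The sequence `a` is uniformly distributed modulo all integers `q ≥ 1` along the sets `S N`. -/
def Equidistributed (S : ℕ → Finset ℕ) (a : ℕ → ℤ) : Prop :=
  ∀ q : ℕ, 1 ≤ q → ∀ ρ : ℤ, Filter.Tendsto
    (fun N => ({t : ℕ | t ∈ S N ∧ (q : ℤ) ∣ a t - ρ}.ncard : ℝ) / (S N).card)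
    Filter.atTop (nhds (1 / (q : ℝ)))

/-- `∑ i ∈ I, α i * t ^ i` is a generalised polynomial with leading exponent `θ`, which is positive
and not an integer, and with positive leading coefficient. -/
def Generalised (I : Finset ℝ) (α : ℝ → ℝ) (θ : ℝ) : Prop :=
  θ ∈ I ∧ (∀ i ∈ I, i ≤ θ) ∧ 0 < θ ∧ (∀ m : ℕ, θ ≠ m) ∧ 0 < α θ

/-- The integral part of the value at `t` of the generalised polynomial `∑ i ∈ I, α i * t ^ i`. -/
noncomputable def value (I : Finset ℝ) (α : ℝ → ℝ) (t : ℕ) : ℤ := ⌊∑ i ∈ I, α i * (t : ℝ) ^ i⌋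

theorem result :
    (∀ (a : ℕ → ℤ) (S S' : ℕ → Finset ℕ), (∀ N, S N ⊆ Finset.Ioc N (2 * N)) →
      (∀ N, S' N ⊆ Finset.Ioc N (2 * N)) → Equidistributed S a → Equidistributed S' a →
      ∃ E : Set ℕ, NullIn S E ∧ NullIn S' E ∧
        (∀ (G : ℤ[X]) (c : ℤ) (k : ℕ), G ≠ 0 → {t : ℕ | t ∉ E ∧ ¬ Far G k (a t + c)}.Finite) ∧
        (∀ (G : ℤ[X]) (c : ℤ) (M : ℕ), G ≠ 0 →
          {t : ℕ | t ∉ E ∧ ∃ n : ℕ, 1 ≤ n ∧ (n : ℤ) = a t + c ∧
            n.totient < M * Nat.gcd n.totient (G.eval (n : ℤ)).natAbs}.Finite) ∧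
        ∀ C : ℕ, {t : ℕ | t ∉ E ∧ ∃ n : ℕ, |(n : ℤ) - a t| ≤ C ∧ Solution n}.Finite) ∧
    (∀ (I : Finset ℝ) (α : ℝ → ℝ) (θ : ℝ), Generalised I α θ →
      Equidistributed (fun N => Finset.Ioc N (2 * N)) (value I α) ∧
      Equidistributed (fun N => (Finset.Ioc N (2 * N)).filter Nat.Prime) (value I α)) := by
  refine ⟨?_, fun _ _ _ h => Pool.Agent.N92.TC.eqd_fl h⟩
  intro a S S' hS hS' hu hu'
  obtain ⟨E, h1, h2, h3⟩ := Pool.Agent.N92.SD.leh_main hS hS' hu hu'
  refine ⟨E, h1, h2, h3, fun G c M hG => (h3 G c M hG).subset ?_, fun C => ?_⟩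
  · rintro t ⟨htE, n, hn, hnt, hlt⟩
    refine ⟨htE, fun hF => ?_⟩
    rw [← hnt] at hF
    have h4 := Pool.Agent.N92.SD.far_gcd hn hF
    have h5 : M * Nat.gcd n.totient (G.eval (n : ℤ)).natAbs ≤
        2 ^ M * Nat.gcd n.totient (G.eval (n : ℤ)).natAbs :=
      Nat.mul_le_mul_right _ Nat.lt_two_pow_self.le
    omega
  · have hX : (X - 1 : ℤ[X]) ≠ 0 := X_sub_C_ne_zero 1
    refine ((Finset.Icc (-(C : ℤ)) C).finite_toSet.biUnion
      (fun c _ => h3 (X - 1) c 1 hX)).subset ?_
    rintro t ⟨htE, n, hn, hs⟩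
    rw [Set.mem_iUnion₂]
    refine ⟨(n : ℤ) - a t, Finset.mem_coe.2 (Finset.mem_Icc.2 (abs_le.1 hn)), htE, ?_⟩
    rintro ⟨Q, hQ, hq⟩
    obtain ⟨q, hqQ⟩ := Finset.card_pos.1 (by rw [hQ]; exact one_pos)
    obtain ⟨hqp, hqn, p, hp, hpn, hqp1⟩ := hq q hqQ
    have e1 : a t + ((n : ℤ) - a t) = n := by ring
    rw [e1] at hqn hpn
    obtain ⟨hl1, -, hl3⟩ := Pool.Agent.H95R2.Leh.leh_of_congr hs.1 hs.2.1 hs.2.2
    have hpn' : p ∣ n := by exact_mod_cast hpn
    have h4 : p.totient ∣ n.totient := Nat.totient_dvd_of_dvd hpn'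
    rw [Nat.totient_prime hp] at h4
    have h5 : q ∣ n - 1 := (hqp1.trans h4).trans hl3
    apply hqn
    rw [eval_sub, eval_X, eval_one]
    have h6 : ((n - 1 : ℕ) : ℤ) = (n : ℤ) - 1 := by
      rw [Nat.cast_sub hl1.le]
      rfl
    rw [← h6]
    exact_mod_cast h5

end Pool.Agent.Results.MP_b50d59_nt.ThinSequences
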